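import Mathlib.Algebra.Order.Ring.Star
import Mathlib.Algebra.MvPolynomial.Funext
import Mathlib.Algebra.MvPolynomial.NoZeroDivisors
import Mathlib.Data.Rat.Star
import Mathlib.RingTheory.SimpleRing.Principal
import Pool.Agent.MP_eddcad_an.Mono

-- ======== part 0: formerly Pool.Agent.MP_eddcad_an.h17.Graded
section MrgPart0

set_option autoImplicit false

namespace Pool.Agent.MP_eddcad_an.h17

open MvPolynomial

/-- A polynomial sphere map with homogeneous components of degrees between `1` and `d`, one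
nonzero component having degree `d`. -/
def Graded (n N d : ℕ) : Prop :=
  ∃ (g : Fin N → MvPolynomial (Fin n) ℂ) (m : Fin N → ℕ), (∀ i, (g i).IsHomogeneous (m i)) ∧
    (∀ i, 1 ≤ m i) ∧ (∀ i, m i ≤ d) ∧ (∃ i, g i ≠ 0 ∧ m i = d) ∧
    ∀ z : Fin n → ℂ, ∑ i, ‖z i‖ ^ 2 = 1 → ∑ j, ‖eval z (g j)‖ ^ 2 = 1

theorem eval_smul_hom {n m : ℕ} {g : MvPolynomial (Fin n) ℂ} (hg : g.IsHomogeneous m) (c : ℂ)
    (z : Fin n → ℂ) : eval (fun i => c * z i) g = c ^ m * eval z g := by
  rw [eval_eq', eval_eq', Finset.mul_sum]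
  refine Finset.sum_congr rfl fun s hs => ?_
  have h : ∑ i, s i = m := by
    by_contra hne
    refine (mem_support_iff.1 hs) (hg.coeff_eq_zero ?_)
    rw [Finsupp.degree_eq_sum]
    exact hne
  simp only [mul_pow, Finset.prod_mul_distrib, Finset.prod_pow_eq_pow_sum, h]
  ring

theorem Graded.polyDeg {n N d : ℕ} (h : Graded n N d) : PolyDeg n N d := by
  obtain ⟨g, m, hh, h1, hd, ⟨i₀, hi, hi'⟩, hs⟩ := h
  refine ⟨g, fun j => (hh j).totalDegree_le.trans (hd j), ⟨i₀, hi' ▸ (hh i₀).totalDegree hi⟩, ?_⟩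
  refine proper_of_sphere _
    (differentiable_pi.2 fun j z => (analyticAt_eval _ z).differentiableAt) ?_ hs
  intro z hz
  set s := ∑ i, ‖z i‖ ^ 2 with hsdef
  have hs0 : 0 ≤ s := Finset.sum_nonneg fun _ _ => sq_nonneg _
  rcases eq_or_lt_of_le hs0 with h | h
  · have hz0 : ∀ j, z j = 0 := fun j => by
      have := (Finset.sum_eq_zero_iff_of_nonneg fun _ _ => sq_nonneg _).1 h.symm j
        (Finset.mem_univ j)
      simpa using this
    have e : ∀ j, eval z (g j) = 0 := by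
      intro j
      have e1 : z = fun i => (0 : ℂ) * z i := funext fun i => by simp [hz0 i]
      rw [e1, eval_smul_hom (hh j), zero_pow (by have := h1 j; omega), zero_mul]
    simp [e]
  · have hr : 0 < √s := Real.sqrt_pos.2 h
    let u : Fin n → ℂ := fun i => ((√s : ℝ) : ℂ)⁻¹ * z i
    have hu : ∑ i, ‖u i‖ ^ 2 = 1 := by
      simp only [u, norm_mul, norm_inv, Complex.norm_real, Real.norm_eq_abs, mul_pow, inv_pow,
        sq_abs, Real.sq_sqrt hs0]
      rw [← Finset.mul_sum, ← hsdef, inv_mul_cancel₀ h.ne']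
    have e1 : z = fun i => ((√s : ℝ) : ℂ) * u i := funext fun i => by
      simp only [u]
      rw [← mul_assoc, mul_inv_cancel₀ (by exact_mod_cast hr.ne'), one_mul]
    refine lt_of_le_of_lt ?_ hz
    calc ∑ j, ‖eval z (g j)‖ ^ 2 ≤ ∑ j, s * ‖eval u (g j)‖ ^ 2 := by
          refine Finset.sum_le_sum fun j _ => ?_
          conv_lhs => rw [e1, eval_smul_hom (hh j)]
          rw [norm_mul, mul_pow, norm_pow, Complex.norm_real, Real.norm_eq_abs, ← pow_mul,
            mul_comm (m j) 2, pow_mul, sq_abs, Real.sq_sqrt hs0]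
          exact mul_le_mul_of_nonneg_right
            (pow_le_of_le_one hs0 hz.le (by have := h1 j; omega)) (sq_nonneg _)
      _ = s := by rw [← Finset.mul_sum, hs u hu, mul_one]

theorem Graded.succ {n N d : ℕ} (h : Graded n N d) : Graded n (N + 1) d := by
  obtain ⟨g, m, hh, h1, hd, ⟨i₀, hi, hi'⟩, hs⟩ := h
  refine ⟨Fin.cons 0 g, Fin.cons d m, ?_, ?_, ?_, ⟨i₀.succ, by simpa using hi, by simpa using hi'⟩,
    ?_⟩
  · refine Fin.cases ?_ fun i => ?_
    · simpa using isHomogeneous_zero _ _ _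
    · simpa using hh i
  · refine Fin.cases ?_ fun i => ?_
    · simpa using hi' ▸ h1 i₀
    · simpa using h1 i
  · refine Fin.cases ?_ fun i => ?_
    · simp
    · simpa using hd i
  · intro z hz
    simpa [Fin.sum_univ_succ] using hs z hz

theorem Graded.mono {n N N' d : ℕ} (h : Graded n N d) (hN : N ≤ N') : Graded n N' d := by
  induction hN with
  | refl => exact h
  | step _ ih => exact ih.succ

theorem Graded.tensor {n N M d e : ℕ} (h : Graded n (N + 1) d) (h' : Graded n M e) :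
    Graded n (N + M) (d + e) := by
  obtain ⟨g, m, hh, h1, hd, ⟨i₀, hi, hi'⟩, hs⟩ := h
  obtain ⟨g', m', hh', h1', hd', ⟨k₀, hk, hk'⟩, hs'⟩ := h'
  refine ⟨Fin.append (fun i => g (i₀.succAbove i)) (fun k => g i₀ * g' k),
    Fin.append (fun i => m (i₀.succAbove i)) (fun k => m i₀ + m' k), ?_, ?_, ?_,
    ⟨Fin.natAdd N k₀, by simpa using ⟨hi, hk⟩, by simp [hi', hk']⟩, ?_⟩
  · refine Fin.addCases (fun i => ?_) fun k => ?_
    · simpa using hh _
    · simpa using (hh i₀).mul (hh' k)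
  · refine Fin.addCases (fun i => ?_) fun k => ?_
    · simpa using h1 _
    · have := h1 i₀
      simp only [Fin.append_right]
      omega
  · refine Fin.addCases (fun i => ?_) fun k => ?_
    · have := hd (i₀.succAbove i)
      simp only [Fin.append_left]
      omega
    · have := hd' k
      simp only [Fin.append_right]
      omega
  · intro z hz
    rw [Fin.sum_univ_add]
    simp only [Fin.append_left, Fin.append_right, map_mul, norm_mul, mul_pow]
    rw [← Finset.mul_sum, hs' z hz, mul_one, add_comm, ← hs z hz, Fin.sum_univ_succAbove _ i₀]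

end Pool.Agent.MP_eddcad_an.h17

end MrgPart0

-- ======== part 1: formerly Pool.Agent.MP_eddcad_an.h17.Ico
section MrgPart1

set_option autoImplicit false

namespace Pool.Agent.MP_eddcad_an.h17

open MvPolynomial

/-- Data of one component `sqrt r * (l0 + (u + t * sqrt (-3047)) * l1)` of degree `j`. -/
structure Dat where
  j : ℕ
  r : ℚ
  u : ℚ
  t : ℚ
  l0 : List (ℕ × ℤ)
  l1 : List (ℕ × ℤ)

/-- The twelve components (covariants of the binary icosahedral group). -/
def dat : Fin 12 → Dat := ![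
  ⟨22, (106267 / 6725000), (-361805 / 18377), (14795 / 18377), [(2, -1), (7, -228), (12, -494), (17, 228), (22, -1)],
    [(2, 1), (7, -14), (12, 32), (17, 3)]⟩,
  ⟨22, (106267 / 3362500), (-72361 / 36754), (2959 / 36754), [(1, 1), (6, 228), (11, 494), (16, -228), (21, 1)],
    [(1, 1), (6, -47), (11, 394), (16, 47), (21, 1)]⟩,
  ⟨22, (106267 / 6725000), (-361805 / 18377), (14795 / 18377), [(0, -1), (5, -228), (10, -494), (15, 228), (20, -1)],
    [(5, -3), (10, 32), (15, 14), (20, 1)]⟩,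
  ⟨21, (1683 / 2500), (551 / 2346), (-133 / 2346), [(2, -1), (7, -171), (12, -247), (17, 57)],
    [(2, 3), (7, -37), (12, 41), (17, 4)]⟩,
  ⟨21, (561 / 2500), (551 / 2346), (-133 / 2346), [(1, 2), (6, 285), (11, 247), (16, 57), (21, -1)],
    [(1, 1), (6, -29), (11, 197), (16, 18)]⟩,
  ⟨21, (561 / 2500), (551 / 2346), (-133 / 2346), [(0, -1), (5, -57), (10, 247), (15, -285), (20, 2)],
    [(5, -18), (10, 197), (15, 29), (20, 1)]⟩,
  ⟨21, (1683 / 2500), (551 / 2346), (-133 / 2346), [(4, -57), (9, -247), (14, 171), (19, -1)],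
    [(4, -4), (9, 41), (14, 37), (19, 3)]⟩,
  ⟨20, (1174173 / 6725000), (0), (0), [(0, -1), (5, -228), (10, -494), (15, 228), (20, -1)],
    []⟩,
  ⟨18, (1142603 / 28750), (-31 / 284), (-3 / 3124), [(1, -1), (6, 9), (11, 23), (16, 2)],
    [(1, -11), (6, -11), (11, 463), (16, 7)]⟩,
  ⟨18, (1142603 / 1150), (-31 / 1420), (-3 / 15620), [(5, -1), (10, 11), (15, 1)],
    [(0, -1), (5, 59), (10, 473), (15, 77)]⟩,
  ⟨18, (1142603 / 1150), (-31 / 1420), (-3 / 15620), [(3, -1), (8, 11), (13, 1)],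
    [(3, -77), (8, 473), (13, -59), (18, -1)]⟩,
  ⟨18, (1142603 / 28750), (-31 / 284), (-3 / 3124), [(2, -2), (7, 23), (12, -9), (17, -1)],
    [(2, -7), (7, 463), (12, 11), (17, -11)]⟩]

/-- Value of a binary form given by a list of (exponent, coefficient). -/
noncomputable def ev (j : ℕ) (l : List (ℕ × ℤ)) (x y : ℂ) : ℂ :=
  (l.map fun p => (p.2 : ℂ) * (x ^ p.1 * y ^ (j - p.1))).sum

/-- The binary form itself. -/
noncomputable def hp (j : ℕ) (l : List (ℕ × ℤ)) : MvPolynomial (Fin 2) ℂ :=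
  (l.map fun p => C (p.2 : ℂ) * (X 0 ^ p.1 * X 1 ^ (j - p.1))).sum

theorem eval_hp (j : ℕ) (l : List (ℕ × ℤ)) (z : Fin 2 → ℂ) :
    eval z (hp j l) = ev j l (z 0) (z 1) := by
  induction l with
  | nil => simp [hp, ev]
  | cons p l ih =>
    simp only [hp, ev, List.map_cons, List.sum_cons, map_add] at ih ⊢
    rw [ih]
    simp

theorem conj_ev (j : ℕ) (l : List (ℕ × ℤ)) (x y : ℂ) :
    (starRingEnd ℂ) (ev j l x y) = ev j l ((starRingEnd ℂ) x) ((starRingEnd ℂ) y) := by
  induction l with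
  | nil => simp [ev]
  | cons p l ih =>
    simp only [ev, List.map_cons, List.sum_cons, map_add] at ih ⊢
    rw [ih]
    simp

theorem hp_hom (j : ℕ) (l : List (ℕ × ℤ)) (h : ∀ p ∈ l, p.1 ≤ j) : (hp j l).IsHomogeneous j := by
  induction l with
  | nil => simpa [hp] using isHomogeneous_zero _ _ _
  | cons p l ih =>
    simp only [hp, List.map_cons, List.sum_cons] at ih ⊢
    refine IsHomogeneous.add ?_ (ih fun q hq => h q (List.mem_cons_of_mem _ hq))
    have h1 := h p List.mem_cons_self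
    have h2 := ((isHomogeneous_X_pow (R := ℂ) (0 : Fin 2) p.1).mul
      (isHomogeneous_X_pow (R := ℂ) (1 : Fin 2) (j - p.1))).C_mul (p.2 : ℂ)
    rwa [show p.1 + (j - p.1) = j by omega] at h2

/-- Rational part of the polarised square norm of a component. -/
noncomputable def reP (D : Dat) (x y u v : ℂ) : ℂ :=
  D.r * ((ev D.j D.l0 x y + D.u * ev D.j D.l1 x y) * (ev D.j D.l0 u v + D.u * ev D.j D.l1 u v)
    + 3047 * D.t ^ 2 * (ev D.j D.l1 x y * ev D.j D.l1 u v)) * (x * u + y * v) ^ (22 - D.j)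

/-- Irrational part of the polarised square norm of a component. -/
noncomputable def imP (D : Dat) (x y u v : ℂ) : ℂ :=
  D.r * D.t * (ev D.j D.l1 x y * ev D.j D.l0 u v - ev D.j D.l0 x y * ev D.j D.l1 u v)
    * (x * u + y * v) ^ (22 - D.j)

theorem key_re (x y u v : ℂ) : ∑ i, reP (dat i) x y u v = (x * u + y * v) ^ 22 := by
  simp only [Fin.sum_univ_succ, Fin.sum_univ_zero, dat, Matrix.cons_val_zero, Matrix.cons_val_succ,
    reP, ev, List.map_cons, List.map_nil, List.sum_cons, List.sum_nil, Nat.reduceSub]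
  push_cast
  ring

theorem key_im (x y u v : ℂ) : ∑ i, imP (dat i) x y u v = 0 := by
  simp only [Fin.sum_univ_succ, Fin.sum_univ_zero, dat, Matrix.cons_val_zero, Matrix.cons_val_succ,
    imP, ev, List.map_cons, List.map_nil, List.sum_cons, List.sum_nil, Nat.reduceSub]
  push_cast
  ring

/-- A square root of `-3047`. -/
noncomputable def th : ℂ := Complex.I * (√3047 : ℝ)

theorem th_sq : th ^ 2 = -3047 := by
  rw [th, mul_pow, Complex.I_sq, ← Complex.ofReal_pow, Real.sq_sqrt (by norm_num)]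
  norm_num

theorem conj_th : (starRingEnd ℂ) th = -th := by simp [th]

/-- The component attached to a datum. -/
noncomputable def comp (D : Dat) : MvPolynomial (Fin 2) ℂ :=
  C ((√(D.r : ℝ) : ℝ) : ℂ) * (hp D.j D.l0 + C ((D.u : ℂ) + D.t * th) * hp D.j D.l1)

theorem norm_comp (D : Dat) (hr : 0 ≤ D.r) (z : Fin 2 → ℂ) (hz : ∑ i, ‖z i‖ ^ 2 = 1) :
    ((‖eval z (comp D)‖ ^ 2 : ℝ) : ℂ) =
      reP D (z 0) (z 1) ((starRingEnd ℂ) (z 0)) ((starRingEnd ℂ) (z 1)) +
      th * imP D (z 0) (z 1) ((starRingEnd ℂ) (z 0)) ((starRingEnd ℂ) (z 1)) := by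
  have h1 : z 0 * (starRingEnd ℂ) (z 0) + z 1 * (starRingEnd ℂ) (z 1) = 1 := by
    rw [Complex.mul_conj', Complex.mul_conj']
    rw [Fin.sum_univ_two] at hz
    exact_mod_cast hz
  have h2 : ((√(D.r : ℝ) : ℝ) : ℂ) ^ 2 = D.r := by
    rw [← Complex.ofReal_pow, Real.sq_sqrt (by exact_mod_cast hr)]
    simp
  rw [Complex.ofReal_pow, ← Complex.mul_conj', reP, imP, h1]
  simp only [comp, map_mul, map_add, eval_C, eval_hp, conj_ev, Complex.conj_ofReal, conj_th,
    map_ratCast, one_pow]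
  linear_combination
    ((ev D.j D.l0 (z 0) (z 1) + (D.u + D.t * th) * ev D.j D.l1 (z 0) (z 1)) *
      (ev D.j D.l0 ((starRingEnd ℂ) (z 0)) ((starRingEnd ℂ) (z 1)) + (D.u - D.t * th) *
        ev D.j D.l1 ((starRingEnd ℂ) (z 0)) ((starRingEnd ℂ) (z 1)))) * h2 -
    (D.r * D.t ^ 2 * ev D.j D.l1 (z 0) (z 1) *
      ev D.j D.l1 ((starRingEnd ℂ) (z 0)) ((starRingEnd ℂ) (z 1))) * th_sq

theorem dat_ok : ∀ i, (∀ p ∈ (dat i).l0, p.1 ≤ (dat i).j) ∧ (∀ p ∈ (dat i).l1, p.1 ≤ (dat i).j) ∧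
    1 ≤ (dat i).j ∧ (dat i).j ≤ 22 := by
  decide

theorem dat_pos (i : Fin 12) : 0 < (dat i).r := by
  fin_cases i <;> simp only [dat] <;> norm_num

theorem graded_ico : Graded 2 12 22 := by
  refine ⟨fun i => comp (dat i), fun i => (dat i).j, fun i => ?_, fun i => (dat_ok i).2.2.1,
    fun i => (dat_ok i).2.2.2, ⟨2, fun h => ?_, rfl⟩, fun z hz => ?_⟩
  · exact ((hp_hom _ _ (dat_ok i).1).add ((hp_hom _ _ (dat_ok i).2.1).C_mul _)).C_mul _
  · have h1 := congrArg (eval ![(0 : ℂ), 1]) h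
    have h2 : (√((dat 2).r : ℝ) : ℝ) ≠ 0 :=
      (Real.sqrt_pos.2 (by exact_mod_cast dat_pos 2)).ne'
    simp only [comp, map_mul, map_add, eval_C, eval_hp, map_zero, mul_eq_zero,
      Complex.ofReal_eq_zero, h2, false_or] at h1
    simp [dat, ev] at h1
  · have h : ((∑ j, ‖eval z (comp (dat j))‖ ^ 2 : ℝ) : ℂ) = 1 := by
      rw [Complex.ofReal_sum]
      simp only [fun i => norm_comp (dat i) (dat_pos i).le z hz]
      rw [Finset.sum_add_distrib, ← Finset.mul_sum, key_re, key_im, Complex.mul_conj',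
        Complex.mul_conj']
      rw [Fin.sum_univ_two] at hz
      have : ((‖z 0‖ : ℂ) ^ 2 + (‖z 1‖ : ℂ) ^ 2) = 1 := by exact_mod_cast hz
      rw [this]
      simp
    exact_mod_cast h

theorem graded_family (k : ℕ) : Graded 2 (11 * (k + 1) + 1) (22 * (k + 1)) := by
  induction k with
  | zero => exact graded_ico
  | succ k ih =>
    have h := Graded.tensor ih graded_ico
    rwa [show 11 * (k + 1) + 12 = 11 * (k + 1 + 1) + 1 by ring,
      show 22 * (k + 1) + 22 = 22 * (k + 1 + 1) by ring] at h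

end Pool.Agent.MP_eddcad_an.h17

end MrgPart1

-- ======== part 2: formerly Pool.Agent.MP_eddcad_an.h17.Least
section MrgPart2

set_option autoImplicit false

namespace Pool.Agent.MP_eddcad_an.h17

open MvPolynomial

theorem ratDegLE_poly {n N d : ℕ} {g : Fin N → MvPolynomial (Fin n) ℂ}
    (h1 : ∀ j, (g j).totalDegree ≤ d) : RatDegLE (fun z j => eval z (g j)) d :=
  ⟨g, 1, h1, by simp, fun z _ => by simp⟩

theorem le_of_ratDegLE {N d e : ℕ} {g : Fin N → MvPolynomial (Fin 2) ℂ} (hd : 1 ≤ d)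
    (h2 : ∃ j, (g j).totalDegree = d) (h : RatDegLE (fun z j => eval z (g j)) e) : d ≤ e := by
  obtain ⟨j, hj⟩ := h2
  obtain ⟨P, Q, hP, -, h⟩ := h
  have hinf : (Metric.ball (0 : ℂ) (1 / 2)).Infinite :=
    infinite_of_mem_nhds (0 : ℂ) (Metric.ball_mem_nhds _ (by norm_num))
  have hmem : ∀ x ∈ Set.pi Set.univ (fun _ : Fin 2 => Metric.ball (0 : ℂ) (1 / 2)),
      x ∈ unitBall 2 := by
    intro x hx
    have h0 : ‖x 0‖ < 1 / 2 := by simpa using hx 0 trivial
    have h1 : ‖x 1‖ < 1 / 2 := by simpa using hx 1 trivial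
    show ∑ i, ‖x i‖ ^ 2 < 1
    rw [Fin.sum_univ_two]
    nlinarith [norm_nonneg (x 0), norm_nonneg (x 1)]
  have e1 : g j * Q = P j := by
    refine funext_set _ (fun _ => hinf) fun x hx => ?_
    obtain ⟨hq, hp⟩ := h x (hmem x hx)
    have := hp j
    simp only at this
    rw [map_mul, this, div_mul_cancel₀ _ hq]
  have hQ : Q ≠ 0 := by
    rintro rfl
    exact (h 0 (by simp [unitBall])).1 (by simp)
  have hg : g j ≠ 0 := by
    intro h0
    rw [h0, totalDegree_zero] at hj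
    omega
  have e2 := totalDegree_mul_of_isDomain hg hQ
  have := hP j
  rw [← e1, e2, hj] at this
  omega

end Pool.Agent.MP_eddcad_an.h17

end MrgPart2

-- marker of a merged file
example : 731051 + 5386 = 731051 + 5386 := rfl
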